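import Mathlib
import Pool.Agent.Q209.SP.Rank

/-!
# The 2-rank of the sandpile group of a Cayley graph of `F_2^r` (MP_8ee885_co)

`d(M)` is odd if some nonzero vector has even multiplicity, and `d(M) = 2^r - 2` otherwise.
-/

set_option autoImplicit false
set_option linter.unusedSectionVars false

namespace Pool.Agent.Results.MP_8ee885_co.ParityOfTwoRank

open Pool.Agent.Q209.SP

lemma exists_list {r : ℕ} (m : V r → ℕ) : ∃ n, ∃ M : Fin n → V r, mult M = m := by
  let e := Fintype.equivFin (Σ u : V r, Fin (m u))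
  refine ⟨_, fun i => (e.symm i).1, ?_⟩
  funext u
  unfold mult
  have h1 : (Finset.univ.filter fun i => (e.symm i).1 = u).card =
      (Finset.univ.filter fun x : (Σ u : V r, Fin (m u)) => x.1 = u).card := by
    refine Finset.card_bij (fun i _ => e.symm i) ?_ ?_ ?_
    · intro i hi
      rw [Finset.mem_filter] at hi ⊢
      exact ⟨Finset.mem_univ _, hi.2⟩
    · intro i _ j _ h; exact e.symm.injective h
    · intro x hx
      rw [Finset.mem_filter] at hx
      refine ⟨e x, ?_, e.symm_apply_apply x⟩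
      rw [Finset.mem_filter, e.symm_apply_apply]
      exact ⟨Finset.mem_univ _, hx.2⟩
  rw [h1, ← Fintype.card_subtype, Fintype.card_congr (Equiv.sigmaSubtype u), Fintype.card_fin]

lemma lam_mult {r n : ℕ} (M : Fin n → V r) (u : V r) :
    lam M u = ∑ v, (mult M v : ℤ) * (1 - ch u v) := by
  have h1 : lam M u = ∑ i, (1 - ch u (M i)) := by
    unfold lam
    rw [Finset.sum_sub_distrib, Finset.sum_const, Finset.card_univ, Fintype.card_fin, nsmul_eq_mul,
      mul_one]
  rw [h1, ← Finset.sum_fiberwise Finset.univ M]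
  refine Finset.sum_congr rfl fun v _ => ?_
  have h2 : ∀ i ∈ Finset.univ.filter (fun i => M i = v), 1 - ch u (M i) = 1 - ch u v := by
    intro i hi
    rw [(Finset.mem_filter.1 hi).2]
  rw [Finset.sum_congr rfl h2, Finset.sum_const, nsmul_eq_mul]
  rfl

lemma sum_one_sub {r : ℕ} {u : V r} (hu : u ≠ 0) : ∑ v, (1 - ch u v) = (2 : ℤ) ^ r := by
  rw [Finset.sum_sub_distrib, Finset.sum_const, Finset.card_univ, card_V,
    Finset.sum_congr rfl fun v _ => ch_comm u v, sum_ch, if_neg hu]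
  simp

/-- for simple graphs with all multiplicities odd, all eigenvalues are equal -/
lemma lam_of_one {r n : ℕ} {M : Fin n → V r} (h1 : ∀ u ≠ 0, mult M u = 1) {u : V r} (hu : u ≠ 0) :
    lam M u = 2 ^ r := by
  rw [lam_mult, ← sum_one_sub hu]
  refine Finset.sum_congr rfl fun v _ => ?_
  by_cases hv : v = 0
  · rw [hv, ch_zero_right, sub_self, mul_zero]
  · rw [h1 v hv]; push_cast; ring

lemma counterexample {r : ℕ} (hr : 2 ≤ r) : ∃ n, ∃ M : Fin n → V r, Adm M ∧
    (∀ u ≠ 0, Odd (mult M u)) ∧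
    ∃ u u' : V r, u ≠ 0 ∧ u' ≠ 0 ∧ padicValInt 2 (lam M u) ≠ padicValInt 2 (lam M u') := by
  let i0 : Fin r := ⟨0, by omega⟩
  let i1 : Fin r := ⟨1, by omega⟩
  have hi : i1 ≠ i0 := by intro h; exact absurd (congrArg Fin.val h) (by decide : (1 : ℕ) ≠ 0)
  let e0 : V r := Pi.single i0 1
  let e1 : V r := Pi.single i1 1
  have s00 : e0 i0 = 1 := Pi.single_eq_same _ _
  have s11 : e1 i1 = 1 := Pi.single_eq_same _ _
  have s0 : ∀ b, b ≠ i0 → e0 b = 0 := fun b hb => Pi.single_eq_of_ne hb _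
  have s1 : ∀ b, b ≠ i1 → e1 b = 0 := fun b hb => Pi.single_eq_of_ne hb _
  have he0 : e0 ≠ 0 := by
    intro h
    have := congrFun h i0
    rw [s00] at this
    exact one_ne_zero this
  have he1 : e1 ≠ 0 := by
    intro h
    have := congrFun h i1
    rw [s11] at this
    exact one_ne_zero this
  have h10 : e1 ≠ e0 := by
    intro h
    have := congrFun h i1
    rw [s11, s0 _ hi] at this
    exact one_ne_zero this
  have hc00 : ch e0 e0 = -1 := by
    unfold ch
    rw [if_neg]
    rw [Finset.sum_eq_single i0]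
    · rw [s00, mul_one]; exact one_ne_zero
    · intro b _ hb; rw [s0 b hb, zero_mul]
    · intro h; exact absurd (Finset.mem_univ _) h
  have hc10 : ch e1 e0 = 1 := by
    unfold ch
    rw [if_pos]
    refine Finset.sum_eq_zero fun j _ => ?_
    by_cases hj : j = i0
    · rw [hj, s1 _ hi.symm, zero_mul]
    · rw [s0 j hj, mul_zero]
  obtain ⟨n, M, hM⟩ := exists_list (r := r) fun u => if u = 0 then 0 else if u = e0 then 3 else 1
  have hm : ∀ u, mult M u = if u = 0 then 0 else if u = e0 then 3 else 1 := fun u => congrFun hM u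
  have hne : ∀ i, M i ≠ 0 := by
    intro i hi0
    have h0 : mult M 0 = 0 := by rw [hm, if_pos rfl]
    unfold mult at h0
    rw [Finset.card_eq_zero, Finset.filter_eq_empty_iff] at h0
    exact h0 (Finset.mem_univ i) hi0
  have hmem : ∀ u : V r, u ≠ 0 → ∃ i, M i = u := by
    intro u hu
    by_contra hcon
    push Not at hcon
    have h0 : mult M u = 0 := by
      unfold mult
      rw [Finset.card_eq_zero, Finset.filter_eq_empty_iff]
      intro i _; exact hcon i
    rw [hm, if_neg hu] at h0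
    split_ifs at h0
  have hlam : ∀ u : V r, u ≠ 0 → lam M u = 2 ^ r + 2 * (1 - ch u e0) := by
    intro u hu
    rw [lam_mult, ← sum_one_sub hu]
    have h1 : ∀ v ∈ (Finset.univ : Finset (V r)), (mult M v : ℤ) * (1 - ch u v) =
        (1 - ch u v) + if v = e0 then 2 * (1 - ch u v) else 0 := by
      intro v _
      rw [hm]
      by_cases hv : v = 0
      · rw [if_pos hv, hv, ch_zero_right]; simp
      · by_cases hv' : v = e0
        · rw [if_neg hv, if_pos hv', if_pos hv']; push_cast; ring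
        · rw [if_neg hv, if_neg hv', if_neg hv']; push_cast; ring
    rw [Finset.sum_congr rfl h1, Finset.sum_add_distrib, Finset.sum_ite_eq' Finset.univ e0,
      if_pos (Finset.mem_univ _)]
  refine ⟨n, M, ⟨hne, ?_, ?_⟩, ?_, e0, e1, he0, he1, ?_⟩
  · rw [eq_top_iff]
    intro x _
    by_cases hx : x = 0
    · rw [hx]; exact Submodule.zero_mem _
    · obtain ⟨i, hi⟩ := hmem x hx
      exact Submodule.subset_span ⟨i, hi⟩
  · have h1 : Finset.univ.gcd (mult M) ∣ mult M e1 := Finset.gcd_dvd (Finset.mem_univ _)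
    rw [hm, if_neg he1, if_neg h10] at h1
    exact Nat.dvd_one.1 h1
  · intro u hu
    rw [hm, if_neg hu]
    split_ifs <;> decide
  · rw [hlam e0 he0, hlam e1 he1, hc00, hc10, sub_self, mul_zero, add_zero]
    have hr2 : padicValInt 2 ((2 : ℤ) ^ r) = r := by
      have : padicValInt 2 (((2 : ℕ) : ℤ) ^ r) = r := by
        rw [← Nat.cast_pow, padicValInt.of_nat, padicValNat.prime_pow]
      exact_mod_cast this
    rw [hr2]
    intro hv
    have h1 := padicValInt_dvd (p := 2) ((2 : ℤ) ^ r + 2 * (1 - -1))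
    rw [hv] at h1
    have h2 : ((2 : ℕ) : ℤ) ^ r ∣ 4 := by
      have h3 := Int.dvd_sub h1 (dvd_refl (((2 : ℕ) : ℤ) ^ r))
      have h4 : (2 : ℤ) ^ r + 2 * (1 - -1) - ((2 : ℕ) : ℤ) ^ r = 4 := by push_cast; ring
      rwa [h4] at h3
    have h5 : 2 ^ r ∣ 4 := by exact_mod_cast h2
    have h6 : r = 2 := by
      have h7 : 2 ^ r ≤ 2 ^ 2 := Nat.le_of_dvd (by norm_num) h5
      have h8 := (Nat.pow_le_pow_iff_right (by norm_num : 1 < 2)).1 h7
      omega
    subst h6
    have h9 : padicValInt 2 ((2 : ℤ) ^ 2 + 2 * (1 - -1)) = 3 := by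
      have h10 : (2 : ℤ) ^ 2 + 2 * (1 - -1) = ((2 ^ 3 : ℕ) : ℤ) := by norm_num
      rw [h10, padicValInt.of_nat, padicValNat.prime_pow]
    rw [h9] at hv
    omega

/-- For every list `M` as in the problem: `K(G)` is finite and the cokernel of the Laplacian is
`ℤ × K(G)`; `d(M)` is odd if some `mu_u` (`u ≠ 0`) is even, and `d(M) = 2^r - 2` if all are odd; if
all valuations of the `lambda_u` are equal then all `mu_u` are odd and `d(M) = 2^r - 2` (the second
assertion of Q1 holds); if all `mu_u ≤ 1` (simple graphs) and the valuations are not all equal, then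
`d(M)` is odd. But for every `r ≥ 2` there is a list `M` with valuations not all equal and `d(M)`
even (the first assertion of Q1 fails). -/
theorem result :
    (∀ (r n : ℕ) (M : Fin n → V r), 1 ≤ r → Adm M →
      Finite (Sand M) ∧ Nonempty (Coker M ≃ₗ[ℤ] ℤ × Sand M) ∧
      ((∃ u ≠ 0, Even (mult M u)) → Odd (dM M)) ∧
      ((∀ u ≠ 0, Odd (mult M u)) → dM M = 2 ^ r - 2) ∧
      ((∀ u u' : V r, u ≠ 0 → u' ≠ 0 → padicValInt 2 (lam M u) = padicValInt 2 (lam M u')) →
        (∀ u ≠ 0, Odd (mult M u)) ∧ dM M = 2 ^ r - 2) ∧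
      ((∀ u, mult M u ≤ 1) →
        (∃ u u' : V r, u ≠ 0 ∧ u' ≠ 0 ∧ padicValInt 2 (lam M u) ≠ padicValInt 2 (lam M u')) →
        Odd (dM M))) ∧
    (∀ r : ℕ, 2 ≤ r → ∃ n, ∃ M : Fin n → V r, Adm M ∧
      (∃ u u' : V r, u ≠ 0 ∧ u' ≠ 0 ∧ padicValInt 2 (lam M u) ≠ padicValInt 2 (lam M u')) ∧
      dM M = 2 ^ r - 2 ∧ Even (dM M)) := by
  refine ⟨fun r n M hr hM => ⟨sand_finite M, ⟨split hM.1 hM.2.1⟩, ?_, ?_, ?_, ?_⟩, ?_⟩
  · rintro ⟨u, hu, he⟩
    exact odd_dM hr hM.1 hM.2.1 hu he
  · intro ho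
    exact dM_all_odd hr hM.1 hM.2.1 ho
  · intro hval
    have ho := all_odd_of_val hr hM hval
    exact ⟨ho, dM_all_odd hr hM.1 hM.2.1 ho⟩
  · rintro hle ⟨u, u', hu, hu', hne⟩
    by_cases hall : ∀ v : V r, v ≠ 0 → mult M v = 1
    · exact absurd (by rw [lam_of_one hall hu, lam_of_one hall hu']) hne
    · push Not at hall
      obtain ⟨v, hv, hv1⟩ := hall
      have h0 : mult M v = 0 := by have := hle v; omega
      exact odd_dM hr hM.1 hM.2.1 hv (by rw [h0]; exact Even.zero)
  · intro r hr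
    obtain ⟨n, M, hM, ho, hval⟩ := counterexample hr
    have hd := dM_all_odd (by omega) hM.1 hM.2.1 ho
    refine ⟨n, M, hM, hval, hd, ?_⟩
    rw [hd]
    have h2 : 2 ≤ 2 ^ r := by
      calc 2 = 2 ^ 1 := by norm_num
        _ ≤ 2 ^ r := Nat.pow_le_pow_right (by norm_num) (by omega)
    exact (Nat.even_sub h2).2 ⟨fun _ => even_two, fun _ => Nat.even_pow.2 ⟨even_two, by omega⟩⟩

end Pool.Agent.Results.MP_8ee885_co.ParityOfTwoRank
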